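import Mathlib

/-!
# The weak Shanks conjecture on the bidisk is false

For every `n ≥ 2` there is a polynomial `f` without zeros on the closed bidisk whose `n`-th optimal
polynomial approximant in `H²(𝔻²)` (degree-lexicographic ordering) vanishes at a point of the open
bidisk; for `n ≤ 1` this does not happen.

The example is `f = (2 + z₂^b)³ (3 - 2 z₁^a z₂^b)²`, with exponents `a, b ≥ 1` depending on `n` such
that, among the monomials `z₁^(a s) z₂^(b t)`, exactly `1`, `z₁^a`, `z₂^b` belong to `𝒫_n`. Its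
approximant is a constant multiple of `679740485 + 242043048 z₁^a - 444385038 z₂^b`.
-/

set_option autoImplicit false

open MvPolynomial

namespace Pool.Agent.Results.MP_52e642_an.WeakShanks

/-- Position (starting from `0`) of the monomial `z₁^(m 0) z₂^(m 1)` in the degree-lexicographic
sequence `1, z₁, z₂, z₁², z₁z₂, z₂², z₁³, ...`. -/
def position (m : Fin 2 →₀ ℕ) : ℕ := (m 0 + m 1) * (m 0 + m 1 + 1) / 2 + m 1

/-- `𝒫_n`: the span of the first `n + 1` monomials. -/
def PolySpace (n : ℕ) : Set (MvPolynomial (Fin 2) ℂ) :=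
  {p | ∀ m ∈ p.support, position m ≤ n}

/-- The square of the norm of `H²(𝔻²)` of a polynomial: the sum of the squares of the moduli of its
coefficients. -/
noncomputable def hardyNormSq (p : MvPolynomial (Fin 2) ℂ) : ℝ :=
  ∑ m ∈ p.support, ‖p.coeff m‖ ^ 2

/-- `q` is the `n`-th optimal polynomial approximant of `1/f` in `H²(𝔻²)`: it minimises
`‖p f - 1‖` over `p ∈ 𝒫_n`. -/
def IsOPA (n : ℕ) (f q : MvPolynomial (Fin 2) ℂ) : Prop :=
  q ∈ PolySpace n ∧ ∀ p ∈ PolySpace n, hardyNormSq (q * f - 1) ≤ hardyNormSq (p * f - 1)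

/-- The sesquilinear form of `H²`. -/
noncomputable def B (p q : MvPolynomial (Fin 2) ℂ) : ℂ :=
  ∑ m ∈ p.support, (starRingEnd ℂ) (p.coeff m) * q.coeff m

lemma B_eq (p q : MvPolynomial (Fin 2) ℂ) (S : Finset (Fin 2 →₀ ℕ)) (h : p.support ⊆ S) :
    B p q = ∑ m ∈ S, (starRingEnd ℂ) (p.coeff m) * q.coeff m := by
  unfold B
  apply Finset.sum_subset h
  intro m _ hm
  rw [notMem_support_iff.1 hm]
  simp

lemma normSq_eq (p : MvPolynomial (Fin 2) ℂ) (S : Finset (Fin 2 →₀ ℕ)) (h : p.support ⊆ S) :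
    hardyNormSq p = ∑ m ∈ S, ‖p.coeff m‖ ^ 2 := by
  unfold hardyNormSq
  apply Finset.sum_subset h
  intro m _ hm
  rw [notMem_support_iff.1 hm]
  simp

lemma B_add_left (p p' q : MvPolynomial (Fin 2) ℂ) : B (p + p') q = B p q + B p' q := by
  classical
  rw [B_eq (p + p') q (p.support ∪ p'.support) support_add,
    B_eq p q (p.support ∪ p'.support) Finset.subset_union_left,
    B_eq p' q (p.support ∪ p'.support) Finset.subset_union_right, ← Finset.sum_add_distrib]
  apply Finset.sum_congr rfl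
  intro m _
  rw [coeff_add, map_add]
  ring

lemma B_monomial_left (k : Fin 2 →₀ ℕ) (c : ℂ) (q : MvPolynomial (Fin 2) ℂ) :
    B (monomial k c) q = (starRingEnd ℂ) c * q.coeff k := by
  classical
  rw [B_eq _ q {k} support_monomial_subset]
  simp

lemma B_zero_left (q : MvPolynomial (Fin 2) ℂ) : B 0 q = 0 := by
  simp [B]

lemma B_sum_left {ι : Type} (s : Finset ι) (p : ι → MvPolynomial (Fin 2) ℂ)
    (q : MvPolynomial (Fin 2) ℂ) : B (∑ i ∈ s, p i) q = ∑ i ∈ s, B (p i) q := by
  classical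
  induction s using Finset.induction_on with
  | empty => simp [B_zero_left]
  | insert i s hi ih => rw [Finset.sum_insert hi, Finset.sum_insert hi, B_add_left, ih]

lemma normSq_add (g h : MvPolynomial (Fin 2) ℂ) :
    hardyNormSq (g + h) = hardyNormSq g + hardyNormSq h + 2 * (B h g).re := by
  classical
  rw [normSq_eq (g + h) (g.support ∪ h.support) support_add,
    normSq_eq g (g.support ∪ h.support) Finset.subset_union_left,
    normSq_eq h (g.support ∪ h.support) Finset.subset_union_right,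
    B_eq h g (g.support ∪ h.support) Finset.subset_union_right,
    Complex.re_sum, Finset.mul_sum, ← Finset.sum_add_distrib, ← Finset.sum_add_distrib]
  apply Finset.sum_congr rfl
  intro m _
  rw [coeff_add, ← Complex.normSq_eq_norm_sq, ← Complex.normSq_eq_norm_sq,
    ← Complex.normSq_eq_norm_sq]
  simp only [Complex.normSq_apply, Complex.add_re, Complex.add_im, Complex.mul_re, Complex.conj_re,
    Complex.conj_im]
  ring

lemma normSq_nonneg (p : MvPolynomial (Fin 2) ℂ) : 0 ≤ hardyNormSq p :=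
  Finset.sum_nonneg fun _ _ => by positivity

/-- If the residual is orthogonal to `𝒫_n f` then `q` is the optimal approximant. -/
lemma isOPA_of_orth (n : ℕ) (f q : MvPolynomial (Fin 2) ℂ) (hq : q ∈ PolySpace n)
    (h : ∀ m : Fin 2 →₀ ℕ, position m ≤ n → ∀ c : ℂ, B (monomial m c * f) (q * f - 1) = 0) :
    IsOPA n f q := by
  classical
  refine ⟨hq, fun p hp => ?_⟩
  have hB : B ((p - q) * f) (q * f - 1) = 0 := by
    rw [(p - q).as_sum, Finset.sum_mul, B_sum_left]
    apply Finset.sum_eq_zero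
    intro m hm
    apply h
    have : m ∈ p.support ∪ q.support := by
      apply support_sub _ _ _ hm
    rcases Finset.mem_union.1 this with h1 | h1
    · exact hp m h1
    · exact hq m h1
  have e : p * f - 1 = (q * f - 1) + (p - q) * f := by ring
  rw [e, normSq_add, hB]
  have := normSq_nonneg ((p - q) * f)
  simp
  linarith

/-! ### The example -/

/-- coefficients of `(3 - 2 w)²` -/
def A : ℕ → ℤ
  | 0 => 9
  | 1 => -12
  | 2 => 4
  | _ => 0

/-- coefficients of `(2 + v)³` -/
def Bc : ℕ → ℤ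
  | 0 => 8
  | 1 => 12
  | 2 => 6
  | 3 => 1
  | _ => 0

/-- coefficients of `(2 + v)³ (3 - 2 u v)²` -/
def F (i j : ℕ) : ℤ := if i ≤ j then A i * Bc (j - i) else 0

/-- coefficients of the residual, times the common denominator -/
def G (i j : ℕ) : ℤ :=
  48941314920 * F i j + 17427099456 * (if i = 0 then 0 else F (i - 1) j)
    - 31995722736 * (if j = 0 then 0 else F i (j - 1))
    - (if i = 0 ∧ j = 0 then 14930418258421 else 0)

/-- the exponents of `z₁^(a i) z₂^(b j)` -/
noncomputable def ph (a b i j : ℕ) : Fin 2 →₀ ℕ := Finsupp.single 0 (a * i) + Finsupp.single 1 (b * j)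

lemma ph_zero (a b i j : ℕ) : ph a b i j 0 = a * i := by simp [ph]
lemma ph_one (a b i j : ℕ) : ph a b i j 1 = b * j := by simp [ph]

lemma ph_inj (a b : ℕ) (ha : 0 < a) (hb : 0 < b) (i j i' j' : ℕ) :
    ph a b i j = ph a b i' j' ↔ i = i' ∧ j = j' := by
  constructor
  · intro h
    have h0 := DFunLike.congr_fun h 0
    have h1 := DFunLike.congr_fun h 1
    rw [ph_zero, ph_zero] at h0
    rw [ph_one, ph_one] at h1
    exact ⟨Nat.eq_of_mul_eq_mul_left ha h0, Nat.eq_of_mul_eq_mul_left hb h1⟩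
  · rintro ⟨rfl, rfl⟩; rfl

lemma ph_add (a b i j i' j' : ℕ) : ph a b i j + ph a b i' j' = ph a b (i + i') (j + j') := by
  ext k
  fin_cases k
  · simp [ph]; ring
  · simp [ph]; ring

lemma ext_ph (m : Fin 2 →₀ ℕ) (a b i j : ℕ) (h0 : m 0 = a * i) (h1 : m 1 = b * j) :
    m = ph a b i j := by
  ext k
  fin_cases k
  · simpa [ph] using h0
  · simpa [ph] using h1

/-- the polynomial with coefficients `G i j` at `z₁^(a i) z₂^(b j)` -/
noncomputable def ev (a b : ℕ) (G : ℕ → ℕ → ℤ) : MvPolynomial (Fin 2) ℂ :=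
  ∑ i ∈ Finset.range 4, ∑ j ∈ Finset.range 7, monomial (ph a b i j) ((G i j : ℤ) : ℂ)

lemma coeff_ev (a b : ℕ) (ha : 0 < a) (hb : 0 < b) (G : ℕ → ℕ → ℤ)
    (hG : ∀ i j, 4 ≤ i ∨ 7 ≤ j → G i j = 0) (i' j' : ℕ) :
    (ev a b G).coeff (ph a b i' j') = ((G i' j' : ℤ) : ℂ) := by
  classical
  simp only [ev, coeff_sum, coeff_monomial, ph_inj a b ha hb]
  by_cases hi : i' < 4
  · by_cases hj : j' < 7
    · rw [Finset.sum_eq_single i', Finset.sum_eq_single j']
      · simp
      · intro j _ hj'; simp [hj']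
      · intro h; exact absurd (Finset.mem_range.2 hj) h
      · intro i _ hi'
        apply Finset.sum_eq_zero
        intro j _; simp [hi']
      · intro h; exact absurd (Finset.mem_range.2 hi) h
    · rw [hG i' j' (Or.inr (by omega))]
      rw [Finset.sum_eq_zero]
      · simp
      · intro i _
        apply Finset.sum_eq_zero
        intro j hj'
        have : j ≠ j' := by
          rintro rfl
          exact hj (Finset.mem_range.1 hj')
        simp [this]
  · rw [hG i' j' (Or.inl (by omega))]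
    rw [Finset.sum_eq_zero]
    · simp
    · intro i hi'
      have : i ≠ i' := by
        rintro rfl
        exact hi (Finset.mem_range.1 hi')
      simp [this]

lemma coeff_ev_ne (a b : ℕ) (G : ℕ → ℕ → ℤ) (k : Fin 2 →₀ ℕ)
    (hk : ∀ i j, k ≠ ph a b i j) : (ev a b G).coeff k = 0 := by
  classical
  simp only [ev, coeff_sum, coeff_monomial]
  apply Finset.sum_eq_zero
  intro i _
  apply Finset.sum_eq_zero
  intro j _
  rw [if_neg]
  intro h
  exact hk i j h.symm

lemma F_zero (i j : ℕ) (h : 4 ≤ i ∨ 7 ≤ j) : F i j = 0 := by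
  unfold F
  split_ifs with hij
  · rcases h with h | h
    · obtain ⟨k, rfl⟩ : ∃ k, i = k + 4 := ⟨i - 4, by omega⟩
      simp [A]
    · by_cases hi : 3 ≤ i
      · obtain ⟨k, rfl⟩ : ∃ k, i = k + 3 := ⟨i - 3, by omega⟩
        simp [A]
      · obtain ⟨k, hk⟩ : ∃ k, j - i = k + 4 := ⟨j - i - 4, by omega⟩
        rw [hk]; simp [Bc]
  · rfl

lemma F_zero' (i j : ℕ) (h : 3 ≤ i ∨ 6 ≤ j) : F i j = 0 := by
  unfold F
  split_ifs with hij
  · rcases h with h | h
    · obtain ⟨k, rfl⟩ : ∃ k, i = k + 3 := ⟨i - 3, by omega⟩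
      simp [A]
    · by_cases hi : 3 ≤ i
      · obtain ⟨k, rfl⟩ : ∃ k, i = k + 3 := ⟨i - 3, by omega⟩
        simp [A]
      · obtain ⟨k, hk⟩ : ∃ k, j - i = k + 4 := ⟨j - i - 4, by omega⟩
        rw [hk]; simp [Bc]
  · rfl

lemma G_zero (i j : ℕ) (h : 4 ≤ i ∨ 7 ≤ j) : G i j = 0 := by
  unfold G
  rw [F_zero i j h]
  have h1 : (if i = 0 then 0 else F (i - 1) j) = 0 := by
    split_ifs with h0
    · rfl
    · exact F_zero' _ _ (by omega)
  have h2 : (if j = 0 then 0 else F i (j - 1)) = 0 := by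
    split_ifs with h0
    · rfl
    · exact F_zero' _ _ (by omega)
  have h3 : ¬ (i = 0 ∧ j = 0) := by omega
  rw [h1, h2, if_neg h3]; simp

/-- the polynomial `f = (2 + z₂^b)³ (3 - 2 z₁^a z₂^b)²` -/
noncomputable def ff (a b : ℕ) : MvPolynomial (Fin 2) ℂ :=
  (2 + X 1 ^ b) ^ 3 * (3 - 2 * X 0 ^ a * X 1 ^ b) ^ 2

/-- the approximant -/
noncomputable def qq (a b : ℕ) : MvPolynomial (Fin 2) ℂ :=
  C (48941314920 / 14930418258421) + C (17427099456 / 14930418258421) * X 0 ^ a
    - C (31995722736 / 14930418258421) * X 1 ^ b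

lemma monomial_ph (a b i j : ℕ) (c : ℂ) :
    (monomial (ph a b i j) c : MvPolynomial (Fin 2) ℂ) = C c * (X 0 ^ a) ^ i * (X 1 ^ b) ^ j := by
  rw [← pow_mul, ← pow_mul, X_pow_eq_monomial, X_pow_eq_monomial, C_mul_monomial, monomial_mul]
  simp [ph]

lemma ev_eq (a b : ℕ) (G : ℕ → ℕ → ℤ) : ev a b G =
    ∑ i ∈ Finset.range 4, ∑ j ∈ Finset.range 7,
      ((G i j : ℤ) : MvPolynomial (Fin 2) ℂ) * (X 0 ^ a) ^ i * (X 1 ^ b) ^ j := by
  simp only [ev, monomial_ph, map_intCast]

lemma ff_eq (a b : ℕ) : ff a b = ev a b F := by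
  rw [ev_eq, ff]
  generalize (X 0 ^ a : MvPolynomial (Fin 2) ℂ) = u
  generalize (X 1 ^ b : MvPolynomial (Fin 2) ℂ) = v
  simp [Finset.sum_range_succ, F, A, Bc]
  ring

lemma CC (x y z : ℂ) (h : x * y = z) : (C x : MvPolynomial (Fin 2) ℂ) * C y = C z := by
  rw [← C_mul, h]

lemma res_eq (a b : ℕ) :
    C 14930418258421 * (qq a b * ff a b - 1) = ev a b G := by
  rw [ev_eq, ff, qq]
  generalize (X 0 ^ a : MvPolynomial (Fin 2) ℂ) = u
  generalize (X 1 ^ b : MvPolynomial (Fin 2) ℂ) = v
  have e1 := CC 14930418258421 (48941314920 / 14930418258421) 48941314920 (by norm_num)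
  have e2 := CC 14930418258421 (17427099456 / 14930418258421) 17427099456 (by norm_num)
  have e3 := CC 14930418258421 (31995722736 / 14930418258421) 31995722736 (by norm_num)
  simp only [map_ofNat] at e1 e2 e3
  rw [map_ofNat C 14930418258421]
  have e : (14930418258421 : MvPolynomial (Fin 2) ℂ) *
      ((C (48941314920 / 14930418258421) + C (17427099456 / 14930418258421) * u
        - C (31995722736 / 14930418258421) * v) *
        ((2 + v) ^ 3 * (3 - 2 * u * v) ^ 2) - 1) =
      (48941314920 + 17427099456 * u - 31995722736 * v) *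
        ((2 + v) ^ 3 * (3 - 2 * u * v) ^ 2) - 14930418258421 := by
    rw [← e1, ← e2, ← e3]; ring
  rw [e]
  simp [Finset.sum_range_succ, G, F, A, Bc]
  ring

/-- the three orthogonality relations -/
lemma orth_num (s t : ℕ) (hst : s + t ≤ 1) :
    ∑ i ∈ Finset.range 4, ∑ j ∈ Finset.range 7, F i j * G (s + i) (t + j) = 0 := by
  have : (s = 0 ∧ t = 0) ∨ (s = 1 ∧ t = 0) ∨ (s = 0 ∧ t = 1) := by omega
  rcases this with ⟨rfl, rfl⟩ | ⟨rfl, rfl⟩ | ⟨rfl, rfl⟩
  · simp [Finset.sum_range_succ, G, F, A, Bc]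
  · simp [Finset.sum_range_succ, G, F, A, Bc]
  · simp [Finset.sum_range_succ, G, F, A, Bc]

lemma B_C_right (p q : MvPolynomial (Fin 2) ℂ) (c : ℂ) : B p (C c * q) = c * B p q := by
  unfold B
  rw [Finset.mul_sum]
  apply Finset.sum_congr rfl
  intro m _
  rw [coeff_C_mul]; ring

/-- expansion of the form against `ev G'` -/
lemma B_ev (a b : ℕ) (F' : ℕ → ℕ → ℤ) (g : MvPolynomial (Fin 2) ℂ) (m : Fin 2 →₀ ℕ) (c : ℂ) :
    B (monomial m c * ev a b F') g = (starRingEnd ℂ) c *
      ∑ i ∈ Finset.range 4, ∑ j ∈ Finset.range 7, ((F' i j : ℤ) : ℂ) * g.coeff (m + ph a b i j) := by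
  rw [ev, Finset.mul_sum, B_sum_left, Finset.mul_sum]
  apply Finset.sum_congr rfl
  intro i _
  rw [Finset.mul_sum, B_sum_left, Finset.mul_sum]
  apply Finset.sum_congr rfl
  intro j _
  rw [monomial_mul, B_monomial_left, map_mul, map_intCast]
  ring

lemma qq_mem (n a b : ℕ) (h1 : position (ph a b 1 0) ≤ n) (h2 : position (ph a b 0 1) ≤ n) :
    qq a b ∈ PolySpace n := by
  classical
  intro m hm
  rw [mem_support_iff] at hm
  by_contra hcon
  push Not at hcon
  apply hm
  have e : qq a b = monomial 0 (48941314920 / 14930418258421 : ℂ) +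
      monomial (ph a b 1 0) (17427099456 / 14930418258421 : ℂ) -
      monomial (ph a b 0 1) (31995722736 / 14930418258421 : ℂ) := by
    rw [monomial_ph, monomial_ph, qq]
    simp
  rw [e, coeff_sub, coeff_add, coeff_monomial, coeff_monomial, coeff_monomial, if_neg, if_neg, if_neg]
  · simp
  · rintro rfl; omega
  · rintro rfl; omega
  · rintro rfl
    simp [position] at hcon

/-- `qq` is the optimal approximant -/
lemma isOPA_qq (n a b : ℕ) (ha : 0 < a) (hb : 0 < b) (h1 : position (ph a b 1 0) ≤ n)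
    (h2 : position (ph a b 0 1) ≤ n) (h3 : ∀ s t : ℕ, position (ph a b s t) ≤ n → s + t ≤ 1) :
    IsOPA n (ff a b) (qq a b) := by
  apply isOPA_of_orth n _ _ (qq_mem n a b h1 h2)
  intro m hm c
  have key : B (monomial m c * ff a b) (C 14930418258421 * (qq a b * ff a b - 1)) = 0 := by
    rw [res_eq, ff_eq, B_ev]
    by_cases hl : ∃ s t, m = ph a b s t
    · obtain ⟨s, t, rfl⟩ := hl
      have hst := h3 s t hm
      have h0 := orth_num s t hst
      have : ∑ i ∈ Finset.range 4, ∑ j ∈ Finset.range 7, ((F i j : ℤ) : ℂ) *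
          (ev a b G).coeff (ph a b s t + ph a b i j) = 0 := by
        simp only [ph_add, coeff_ev a b ha hb G G_zero]
        have h0' : ((∑ i ∈ Finset.range 4, ∑ j ∈ Finset.range 7, F i j * G (s + i) (t + j) : ℤ) : ℂ)
          = 0 := by rw [h0]; simp
        push_cast at h0'
        exact h0'
      rw [this, mul_zero]
    · push Not at hl
      rw [Finset.sum_eq_zero, mul_zero]
      intro i _
      apply Finset.sum_eq_zero
      intro j _
      rw [coeff_ev_ne, mul_zero]
      intro i' j' h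
      have e0 := DFunLike.congr_fun h 0
      have e1 := DFunLike.congr_fun h 1
      rw [Finsupp.add_apply, ph_zero, ph_zero] at e0
      rw [Finsupp.add_apply, ph_one, ph_one] at e1
      refine hl (i' - i) (j' - j) (ext_ph m a b _ _ ?_ ?_)
      · rw [Nat.mul_sub]; omega
      · rw [Nat.mul_sub]; omega
  rw [B_C_right] at key
  rcases mul_eq_zero.1 key with h | h
  · norm_num at h
  · exact h

lemma position_ph (a b i j : ℕ) :
    position (ph a b i j) = (a * i + b * j) * (a * i + b * j + 1) / 2 + b * j := by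
  rw [position, ph_zero, ph_one]

/-- exponents adapted to `n` -/
lemma exists_ab (n : ℕ) (hn : 2 ≤ n) : ∃ a b : ℕ, 0 < a ∧ 0 < b ∧ position (ph a b 1 0) ≤ n ∧
    position (ph a b 0 1) ≤ n ∧ ∀ s t : ℕ, position (ph a b s t) ≤ n → s + t ≤ 1 := by
  -- a general lower bound
  have hlow : ∀ (a b s t d : ℕ), d ≤ a * s + b * t → d * (d + 1) / 2 ≤ position (ph a b s t) := by
    intro a b s t d hd
    rw [position_ph]
    have : d * (d + 1) ≤ (a * s + b * t) * (a * s + b * t + 1) := by gcongr
    omega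
  by_cases h5 : 5 ≤ n
  · -- large n
    set e := Nat.findGreatest (fun e => e * (e + 3) / 2 ≤ n) n with he
    have he1 : e * (e + 3) / 2 ≤ n := by
      have := Nat.findGreatest_spec (P := fun e => e * (e + 3) / 2 ≤ n) (m := 0) (n := n)
        (Nat.zero_le n) (by simp)
      exact this
    have he2 : 2 ≤ e := by
      apply Nat.le_findGreatest (by omega)
      simpa using h5
    have he3 : n < (e + 1) * (e + 4) / 2 := by
      by_contra hcon
      push Not at hcon
      have hle : e + 1 ≤ n := by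
        have : (e + 1) * 2 ≤ (e + 1) * (e + 4) := by gcongr; omega
        omega
      have := Nat.le_findGreatest (P := fun e => e * (e + 3) / 2 ≤ n) hle hcon
      omega
    refine ⟨e, e, by omega, by omega, ?_, ?_, ?_⟩
    · rw [position_ph]
      have : e * (e + 1) ≤ e * (e + 3) := by gcongr; omega
      simp
      omega
    · rw [position_ph]
      simp
      have h6 : e * (e + 3) = e * (e + 1) + 2 * e := by ring
      omega
    · intro s t h
      by_contra hcon
      push Not at hcon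
      have h7 : e + 2 ≤ e * s + e * t := by
        have : e * 2 ≤ e * (s + t) := by gcongr; omega
        rw [Nat.mul_add] at this
        omega
      have h8 := hlow e e s t (e + 2) h7
      have h9 : (e + 2) * (e + 2 + 1) = (e + 1) * (e + 4) + 2 := by ring
      omega
  · have : n = 2 ∨ n = 3 ∨ n = 4 := by omega
    rcases this with rfl | h
    · refine ⟨1, 1, by norm_num, by norm_num, by simp [position_ph],
        by simp [position_ph], ?_⟩
      intro s t h
      by_contra hcon
      push Not at hcon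
      have := hlow 1 1 s t 2 (by omega)
      omega
    · refine ⟨2, 1, by norm_num, by norm_num, by rw [position_ph]; omega,
        by rw [position_ph]; omega, ?_⟩
      intro s t h'
      by_contra hcon
      push Not at hcon
      by_cases hs : s = 0
      · subst hs
        rw [position_ph] at h'
        have : 2 * 3 ≤ (2 * 0 + 1 * t) * (2 * 0 + 1 * t + 1) := by
          apply Nat.mul_le_mul <;> omega
        omega
      · have := hlow 2 1 s t 3 (by omega)
        omega

lemma ff_ne (a b : ℕ) (z : Fin 2 → ℂ) (h0 : ‖z 0‖ ≤ 1) (h1 : ‖z 1‖ ≤ 1) :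
    eval z (ff a b) ≠ 0 := by
  have e : eval z (ff a b) = (2 + z 1 ^ b) ^ 3 * (3 - 2 * z 0 ^ a * z 1 ^ b) ^ 2 := by
    simp [ff]
  rw [e]
  have p0 : ‖z 0 ^ a‖ ≤ 1 := by rw [norm_pow]; exact pow_le_one₀ (norm_nonneg _) h0
  have p1 : ‖z 1 ^ b‖ ≤ 1 := by rw [norm_pow]; exact pow_le_one₀ (norm_nonneg _) h1
  apply mul_ne_zero
  · apply pow_ne_zero
    intro h
    have : z 1 ^ b = -2 := by linear_combination h
    rw [this] at p1
    norm_num at p1
  · apply pow_ne_zero
    intro h
    have h2 : z 0 ^ a * z 1 ^ b = 3 / 2 := by linear_combination -h / 2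
    have h3 : ‖z 0 ^ a * z 1 ^ b‖ ≤ 1 := by
      rw [norm_mul]; exact mul_le_one₀ p0 (norm_nonneg _) p1
    rw [h2] at h3
    norm_num at h3

lemma qq_zero (a b : ℕ) (ha : 0 < a) (hb : 0 < b) :
    ∃ z : Fin 2 → ℂ, ‖z 0‖ < 1 ∧ ‖z 1‖ < 1 ∧ eval z (qq a b) = 0 := by
  set ρ : ℂ := ((679740485 / 686428086 : ℝ) : ℂ) with hρ
  have hρn : ‖ρ‖ < 1 := by
    rw [hρ, Complex.norm_real, Real.norm_of_nonneg (by norm_num)]; norm_num
  obtain ⟨x, hx⟩ := IsAlgClosed.exists_pow_nat_eq (-ρ) ha
  obtain ⟨y, hy⟩ := IsAlgClosed.exists_pow_nat_eq ρ hb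
  have hlt : ∀ (k : ℕ) (x w : ℂ), x ^ k = w → ‖w‖ < 1 → ‖x‖ < 1 := by
    intro k x w h hw
    by_contra hcon
    push Not at hcon
    have : 1 ≤ ‖x‖ ^ k := one_le_pow₀ hcon
    rw [← norm_pow, h] at this
    linarith
  refine ⟨![x, y], hlt a x _ hx (by rwa [norm_neg]), hlt b y _ hy hρn, ?_⟩
  simp only [qq, map_add, map_sub, map_mul, map_pow, eval_C, eval_X, Matrix.cons_val_zero,
    Matrix.cons_val_one, hx, hy]
  rw [hρ]
  push_cast
  norm_num

/-! ### The indices `n ≤ 1` -/

lemma B_C_left (p q : MvPolynomial (Fin 2) ℂ) (c : ℂ) :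
    B (C c * p) q = (starRingEnd ℂ) c * B p q := by
  by_cases hc : c = 0
  · subst hc; simp [B_zero_left]
  · rw [B_eq (C c * p) q p.support]
    · unfold B
      rw [Finset.mul_sum]
      apply Finset.sum_congr rfl
      intro m _
      rw [coeff_C_mul, map_mul]; ring
    · intro m hm
      rw [mem_support_iff, coeff_C_mul] at hm
      rw [mem_support_iff]
      exact right_ne_zero_of_mul hm

lemma normSq_C_mul (p : MvPolynomial (Fin 2) ℂ) (c : ℂ) :
    hardyNormSq (C c * p) = ‖c‖ ^ 2 * hardyNormSq p := by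
  rw [normSq_eq (C c * p) p.support]
  · unfold hardyNormSq
    rw [Finset.mul_sum]
    apply Finset.sum_congr rfl
    intro m _
    rw [coeff_C_mul, norm_mul]; ring
  · intro m hm
    rw [mem_support_iff, coeff_C_mul] at hm
    rw [mem_support_iff]
    exact right_ne_zero_of_mul hm

lemma normSq_X_mul (p : MvPolynomial (Fin 2) ℂ) : hardyNormSq (X 0 * p) = hardyNormSq p := by
  unfold hardyNormSq
  rw [support_X_mul, Finset.sum_map]
  apply Finset.sum_congr rfl
  intro m _
  simp [coeff_X_mul]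

lemma normSq_sub_one (g : MvPolynomial (Fin 2) ℂ) :
    hardyNormSq (g - 1) = hardyNormSq g + 1 - 2 * (g.coeff 0).re := by
  have e : g - 1 = g + monomial 0 (-1 : ℂ) := by
    rw [sub_eq_add_neg]
    congr 1
    rw [map_neg]; rfl
  rw [e, normSq_add, B_monomial_left]
  have : hardyNormSq (monomial (0 : Fin 2 →₀ ℕ) (-1 : ℂ)) = 1 := by
    rw [normSq_eq _ {0} support_monomial_subset]
    simp
  rw [this]
  simp
  ring

lemma normSq_lin (f : MvPolynomial (Fin 2) ℂ) (α β : ℂ) :
    hardyNormSq ((C α + C β * X 0) * f - 1) = (‖α‖ ^ 2 + ‖β‖ ^ 2) * hardyNormSq f +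
      2 * ((starRingEnd ℂ) β * α * B (X 0 * f) f).re + 1 - 2 * (α * f.coeff 0).re := by
  rw [normSq_sub_one]
  have e : (C α + C β * X 0) * f = C α * f + C β * (X 0 * f) := by ring
  have e2 : ((C α + C β * X 0) * f).coeff 0 = α * f.coeff 0 := by
    rw [e, coeff_add, coeff_C_mul, coeff_C_mul, coeff_X_mul']
    simp
  rw [e2, e, normSq_add, normSq_C_mul, normSq_C_mul, normSq_X_mul, B_C_left, B_C_right]
  have e3 : (starRingEnd ℂ) β * (α * B (X 0 * f) f) = (starRingEnd ℂ) β * α * B (X 0 * f) f := by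
    ring
  rw [e3]
  ring

lemma normSq_pos (f : MvPolynomial (Fin 2) ℂ) (hf : f.coeff 0 ≠ 0) : 0 < hardyNormSq f := by
  unfold hardyNormSq
  apply Finset.sum_pos'
  · intro m _; positivity
  · exact ⟨0, mem_support_iff.2 hf, by positivity⟩

lemma form_of_mem (n : ℕ) (hn : n ≤ 1) (q : MvPolynomial (Fin 2) ℂ) (hq : q ∈ PolySpace n) :
    ∃ α β : ℂ, q = C α + C β * X 0 ∧ (n = 0 → β = 0) := by
  classical
  refine ⟨q.coeff 0, q.coeff (Finsupp.single 0 1), ?_, ?_⟩
  · ext m
    rw [coeff_add, coeff_C, coeff_C_mul, coeff_X]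
    by_cases h0 : 0 = m
    · subst h0
      simp
    · rw [if_neg h0, zero_add]
      by_cases h1 : Finsupp.single 0 1 = m
      · subst h1; simp
      · rw [if_neg h1, mul_zero]
        by_contra hcon
        have hpos := hq m (mem_support_iff.2 hcon)
        have hle : position m ≤ 1 := hpos.trans hn
        unfold position at hle
        have hs : m 0 + m 1 ≤ 1 := by
          by_contra hc
          push Not at hc
          have : 2 * 3 ≤ (m 0 + m 1) * (m 0 + m 1 + 1) := by
            apply Nat.mul_le_mul <;> omega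
          omega
        have hm1 : m 1 = 0 := by
          by_contra hc
          have h1 : m 1 = 1 := by omega
          have h0' : m 0 = 0 := by omega
          rw [h1, h0'] at hle
          omega
        rcases Nat.le_one_iff_eq_zero_or_eq_one.1 (by omega : m 0 ≤ 1) with h | h
        · apply h0
          ext k; fin_cases k
          · simpa using h.symm
          · simpa using hm1.symm
        · apply h1
          ext k; fin_cases k
          · simpa using h.symm
          · simpa using hm1.symm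
  · rintro rfl
    by_contra hcon
    have := hq _ (mem_support_iff.2 hcon)
    simp [position] at this

lemma lin_mem (α β : ℂ) : (C α + C β * X 0 : MvPolynomial (Fin 2) ℂ) ∈ PolySpace 1 := by
  classical
  intro m hm
  rw [mem_support_iff, coeff_add, coeff_C, coeff_C_mul, coeff_X] at hm
  by_cases h0 : 0 = m
  · subst h0; simp [position]
  · by_cases h1 : Finsupp.single 0 1 = m
    · subst h1; simp [position]
    · rw [if_neg h0, if_neg h1] at hm
      simp at hm

lemma const_mem (n : ℕ) (α : ℂ) : (C α + C 0 * X 0 : MvPolynomial (Fin 2) ℂ) ∈ PolySpace n := by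
  classical
  intro m hm
  rw [map_zero, zero_mul, add_zero, mem_support_iff, coeff_C] at hm
  by_cases h0 : 0 = m
  · subst h0; simp [position]
  · rw [if_neg h0] at hm
    simp at hm

lemma low (n : ℕ) (hn : n ≤ 1) (f q : MvPolynomial (Fin 2) ℂ) (hf : f.coeff 0 ≠ 0)
    (hq : IsOPA n f q) (z : Fin 2 → ℂ) (hz : ‖z 0‖ < 1) : eval z q ≠ 0 := by
  intro h0
  obtain ⟨α, β, rfl, hβ⟩ := form_of_mem n hn q hq.1
  have hα : α = - (β * z 0) := by
    have : α + β * z 0 = 0 := by simpa using h0
    linear_combination this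
  have hN := normSq_pos f hf
  by_cases hb : β = 0
  · -- zero approximant
    have hα0 : α = 0 := by rw [hα, hb]; ring
    have h1 := hq.2 _ (const_mem n ((starRingEnd ℂ) (f.coeff 0) / (hardyNormSq f : ℂ)))
    rw [normSq_lin, normSq_lin, hα0, hb] at h1
    have e1 : ((starRingEnd ℂ) (f.coeff 0) / (hardyNormSq f : ℂ) * f.coeff 0).re =
        ‖f.coeff 0‖ ^ 2 / hardyNormSq f := by
      rw [div_mul_eq_mul_div, mul_comm, Complex.mul_conj, ← Complex.ofReal_div, Complex.ofReal_re,
        Complex.normSq_eq_norm_sq]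
    have e2 : ‖(starRingEnd ℂ) (f.coeff 0) / (hardyNormSq f : ℂ)‖ ^ 2 =
        ‖f.coeff 0‖ ^ 2 / hardyNormSq f ^ 2 := by
      rw [norm_div, RCLike.norm_conj, Complex.norm_real, Real.norm_of_nonneg hN.le, div_pow]
    rw [e1, e2] at h1
    have h3 : 0 < ‖f.coeff 0‖ ^ 2 / hardyNormSq f := by positivity
    have e3 : (‖f.coeff 0‖ ^ 2 / hardyNormSq f ^ 2) * hardyNormSq f =
        ‖f.coeff 0‖ ^ 2 / hardyNormSq f := by
      field_simp
    simp at h1
    rw [e3] at h1
    linarith
  · have hn1 : n = 1 := by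
      rcases Nat.le_one_iff_eq_zero_or_eq_one.1 hn with h | h
      · exact absurd (hβ h) hb
      · exact h
    subst hn1
    have hlt : ‖α‖ < ‖β‖ := by
      rw [hα, norm_neg, norm_mul]
      have : 0 < ‖β‖ := norm_pos_iff.2 hb
      nlinarith
    set w : ℂ := (starRingEnd ℂ) β * f.coeff 0 with hw
    have hw0 : w ≠ 0 := by
      rw [hw]
      apply mul_ne_zero _ hf
      simpa using hb
    have hwn : 0 < ‖w‖ := norm_pos_iff.2 hw0
    set om : ℂ := (starRingEnd ℂ) w / (‖w‖ : ℂ) with hom
    have homn : ‖om‖ = 1 := by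
      rw [hom, norm_div, RCLike.norm_conj, Complex.norm_real, norm_norm, div_self hwn.ne']
    have h1 := hq.2 _ (lin_mem (om * (starRingEnd ℂ) β) (om * (starRingEnd ℂ) α))
    rw [normSq_lin, normSq_lin] at h1
    have e1 : (starRingEnd ℂ) (om * (starRingEnd ℂ) α) * (om * (starRingEnd ℂ) β) =
        (starRingEnd ℂ) β * α := by
      rw [map_mul, Complex.conj_conj]
      have : (starRingEnd ℂ) om * om = 1 := by
        rw [mul_comm, Complex.mul_conj, Complex.normSq_eq_norm_sq, homn]; norm_num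
      linear_combination ((starRingEnd ℂ) β * α) * this
    have e2 : (om * (starRingEnd ℂ) β * f.coeff 0).re = ‖β‖ * ‖f.coeff 0‖ := by
      have : om * (starRingEnd ℂ) β * f.coeff 0 = (‖w‖ : ℂ) := by
        have h5 : om * (starRingEnd ℂ) β * f.coeff 0 = (starRingEnd ℂ) w * w / (‖w‖ : ℂ) := by
          rw [hom, hw]; ring
        rw [h5, mul_comm ((starRingEnd ℂ) w), Complex.mul_conj, Complex.normSq_eq_norm_sq]
        push_cast
        field_simp
      rw [this, Complex.ofReal_re, hw, norm_mul, RCLike.norm_conj]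
    have e3 : (α * f.coeff 0).re ≤ ‖α‖ * ‖f.coeff 0‖ := by
      rw [← norm_mul]; exact Complex.re_le_norm _
    rw [e1, e2, norm_mul, norm_mul, homn, RCLike.norm_conj, RCLike.norm_conj, one_mul, one_mul] at h1
    have h6 : 0 < ‖f.coeff 0‖ := norm_pos_iff.2 hf
    nlinarith

/-- **Main theorem.** For every `n`, the following holds if and only if `n ≤ 1`: for every
polynomial `f` without zeros on the closed bidisk, the `n`-th optimal polynomial approximant of
`1/f` in `H²(𝔻²)` has no zeros in the open bidisk. In particular the weak Shanks conjecture fails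
for every `n ≥ 2`. -/
theorem result (n : ℕ) :
    (∀ f : MvPolynomial (Fin 2) ℂ,
      (∀ z : Fin 2 → ℂ, ‖z 0‖ ≤ 1 → ‖z 1‖ ≤ 1 → eval z f ≠ 0) →
      ∀ q : MvPolynomial (Fin 2) ℂ, IsOPA n f q →
        ∀ z : Fin 2 → ℂ, ‖z 0‖ < 1 → ‖z 1‖ < 1 → eval z q ≠ 0) ↔ n ≤ 1 := by
  constructor
  · intro h
    by_contra hcon
    push Not at hcon
    obtain ⟨a, b, ha, hb, h1, h2, h3⟩ := exists_ab n hcon
    obtain ⟨z, hz0, hz1, hz⟩ := qq_zero a b ha hb
    exact h (ff a b) (ff_ne a b) (qq a b) (isOPA_qq n a b ha hb h1 h2 h3) z hz0 hz1 hz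
  · intro hn f hf q hq z hz _
    have hf0 : f.coeff 0 ≠ 0 := by
      have := hf 0 (by simp) (by simp)
      rwa [eval_zero] at this
    exact low n hn f q hf0 hq z hz

end Pool.Agent.Results.MP_52e642_an.WeakShanks
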